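import Pool.Agent.Lib.MP_0da313_nt.TC.E.M.Sq

set_option autoImplicit false

/-!
Project TC, section E/M: the sum over the moduli, and `R_ms` from `R_ebv`.
-/

namespace Pool.Agent.TC.E.M

open Finset Filter
open Pool.Agent.MP89da58 (kapD tri)
open Pool.Agent.CH (thP)
open Pool.Agent.CM (wd)
open Pool.Agent.APP (ee)

/-- The sum over one modulus. -/
theorem l1_one (P : Pair) (F G : ℕ → ℝ) (hF0 : F 0 = 0) {K0 : ℕ} (hF : ∀ k, F k ≠ 0 → k ≤ K0)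
    (hG : ∀ k, |G k| ≤ thP k) {N N' K M q : ℕ} {E : ℝ} (hE0 : 0 ≤ E) (Rel : ℕ → ℕ → Finset ℕ)
    (hcl : Cl P K N N' Rel) (hq : 1 ≤ q) (hsq : Squarefree q) (hqM : q ≤ M)
    (hE : ∀ r : ℕ, r.Coprime (P.u0.natAbs * q) → ∀ α : ℝ,
      ‖∑ k ∈ (Icc 1 K0).filter (fun k => k ≡ r [MOD (P.u0.natAbs * q)]), (F k : ℂ) * ee (α * k)‖ ≤ E)
    (hcop : ∀ n ∈ Ioc N N', IsCoprime P.u0 (P.b0 * n + P.c0) ∧ IsCoprime P.u1 (P.b1 * n + P.c1))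
    (hsup : ∀ n ∈ Ioc N N', ∀ x : ℤ, 0 < P.L0 n x → F (P.L0 n x).toNat ≠ 0 →
      G (P.L1 n x).toNat ≠ 0 → 0 < x ∧ x < n)
    (hM : ∀ n ∈ Ioc N N', ∀ x : ℤ, 0 < x → x < n → P.L1 n x ≤ M) :
    ∑ n ∈ Ioc N N', ∑ a ∈ Rel q n, |Sg P F G q n a| ≤
      Real.sqrt (2 * P.u0.natAbs * M * (N' - N : ℕ)) * Real.log M *
        ((K : ℝ) ^ q.primeFactors.card * E) := by
  have h1 := sq_sum P F G hF0 hF hG Rel hcl hq hsq hqM hE hcop hsup hM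
  have hq0 : (0 : ℝ) < q := by exact_mod_cast hq
  have hlog : 0 ≤ Real.log M := Real.log_natCast_nonneg M
  have hc : (∑ n ∈ Ioc N N', ∑ a ∈ Rel q n, |Sg P F G q n a|) ^ 2 ≤
      (∑ n ∈ Ioc N N', ((Rel q n).card : ℝ)) * ∑ n ∈ Ioc N N', ∑ a ∈ Rel q n, Sg P F G q n a ^ 2 := by
    rw [sum_sigma', sum_sigma']
    have h2 := sq_sum_le_card_mul_sum_sq (s := (Ioc N N').sigma fun n => Rel q n)
      (f := fun p => |Sg P F G q p.1 p.2|)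
    rw [card_sigma] at h2
    push_cast at h2
    simpa only [sq_abs] using h2
  have hn : ∑ n ∈ Ioc N N', ((Rel q n).card : ℝ) ≤ (N' - N : ℕ) * (K : ℝ) ^ q.primeFactors.card := by
    refine (sum_le_card_nsmul _ _ _ fun n hn => hcl.card q hsq n hn).trans ?_
    rw [Nat.card_Ioc, nsmul_eq_mul]
  have h2 : (∑ n ∈ Ioc N N', ∑ a ∈ Rel q n, |Sg P F G q n a|) ^ 2 ≤
      (Real.sqrt (2 * P.u0.natAbs * M * (N' - N : ℕ)) * Real.log M *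
        ((K : ℝ) ^ q.primeFactors.card * E)) ^ 2 := by
    refine hc.trans ((mul_le_mul hn h1 (sum_nonneg fun _ _ => sum_nonneg fun _ _ => sq_nonneg _)
      (by positivity)).trans_eq ?_)
    rw [mul_pow, mul_pow, Real.sq_sqrt (by positivity)]
    push_cast
    field_simp
  exact le_of_sq_le_sq h2 (by positivity)

/-- The sum over the moduli. -/
theorem l1_sum (P : Pair) (F G : ℕ → ℝ) (hF0 : F 0 = 0) {K0 : ℕ} (hF : ∀ k, F k ≠ 0 → k ≤ K0)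
    (hG : ∀ k, |G k| ≤ thP k) {N N' K M b : ℕ} (S : Finset ℕ) (E : ℕ → ℝ) (hE0 : ∀ q, 0 ≤ E q)
    (Rel : ℕ → ℕ → Finset ℕ)
    (hcl : Cl P K N N' Rel) (hS : ∀ q ∈ S, 1 ≤ q ∧ Squarefree q ∧ q ≤ M)
    (hE : ∀ q ∈ S, ∀ r : ℕ, r.Coprime (P.u0.natAbs * q) → ∀ α : ℝ,
      ‖∑ k ∈ (Icc 1 K0).filter (fun k => k ≡ r [MOD (P.u0.natAbs * q)]), (F k : ℂ) * ee (α * k)‖
        ≤ E q)
    (hcop : ∀ n ∈ Ioc N N', IsCoprime P.u0 (P.b0 * n + P.c0) ∧ IsCoprime P.u1 (P.b1 * n + P.c1))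
    (hsup : ∀ n ∈ Ioc N N', ∀ x : ℤ, 0 < P.L0 n x → F (P.L0 n x).toNat ≠ 0 →
      G (P.L1 n x).toNat ≠ 0 → 0 < x ∧ x < n)
    (hM : ∀ n ∈ Ioc N N', ∀ x : ℤ, 0 < x → x < n → P.L1 n x ≤ M) :
    ∑ n ∈ Ioc N N', ∑ q ∈ S, (b : ℝ) ^ q.primeFactors.card * ∑ a ∈ Rel q n, |Sg P F G q n a| ≤
      Real.sqrt (2 * P.u0.natAbs * M * (N' - N : ℕ)) * Real.log M *
        ∑ q ∈ S, ((b * K : ℕ) : ℝ) ^ q.primeFactors.card * E q := by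
  rw [sum_comm, mul_sum]
  refine sum_le_sum fun q hq => ?_
  obtain ⟨h1, h2, h3⟩ := hS q hq
  rw [← mul_sum]
  have h4 := l1_one P F G hF0 hF hG (hE0 q) Rel hcl h1 h2 h3 (hE q hq) hcop hsup hM
  refine (mul_le_mul_of_nonneg_left h4 (by positivity)).trans_eq ?_
  push_cast
  rw [mul_pow]
  ring

/-- Markov: the number of exceptional `n`. -/
theorem markov (P : Pair) (F G : ℕ → ℝ) (hF0 : F 0 = 0) {K0 : ℕ} (hF : ∀ k, F k ≠ 0 → k ≤ K0)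
    (hG : ∀ k, |G k| ≤ thP k) {N N' K M b : ℕ} (S : Finset ℕ) (E : ℕ → ℝ) (hE0 : ∀ q, 0 ≤ E q)
    (Rel : ℕ → ℕ → Finset ℕ)
    (hcl : Cl P K N N' Rel) (hS : ∀ q ∈ S, 1 ≤ q ∧ Squarefree q ∧ q ≤ M)
    (hE : ∀ q ∈ S, ∀ r : ℕ, r.Coprime (P.u0.natAbs * q) → ∀ α : ℝ,
      ‖∑ k ∈ (Icc 1 K0).filter (fun k => k ≡ r [MOD (P.u0.natAbs * q)]), (F k : ℂ) * ee (α * k)‖
        ≤ E q)
    (hcop : ∀ n ∈ Ioc N N', IsCoprime P.u0 (P.b0 * n + P.c0) ∧ IsCoprime P.u1 (P.b1 * n + P.c1))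
    (hsup : ∀ n ∈ Ioc N N', ∀ x : ℤ, 0 < P.L0 n x → F (P.L0 n x).toNat ≠ 0 →
      G (P.L1 n x).toNat ≠ 0 → 0 < x ∧ x < n)
    (hM : ∀ n ∈ Ioc N N', ∀ x : ℤ, 0 < x → x < n → P.L1 n x ≤ M) {T : ℝ} (hT : 0 < T) :
    (((Ioc N N').filter (fun n : ℕ => T <
      ∑ q ∈ S, (b : ℝ) ^ q.primeFactors.card * ∑ a ∈ Rel q n, |Sg P F G q n a|)).card : ℝ) ≤
      Real.sqrt (2 * P.u0.natAbs * M * (N' - N : ℕ)) * Real.log M *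
        (∑ q ∈ S, ((b * K : ℕ) : ℝ) ^ q.primeFactors.card * E q) / T := by
  rw [le_div_iff₀ hT]
  refine le_trans ?_ (l1_sum P F G hF0 hF hG (b := b) S E hE0 Rel hcl hS hE hcop hsup hM)
  have h1 : ∀ n : ℕ, 0 ≤ ∑ q ∈ S, (b : ℝ) ^ q.primeFactors.card * ∑ a ∈ Rel q n, |Sg P F G q n a| :=
    fun n => sum_nonneg fun q _ => mul_nonneg (by positivity) (sum_nonneg fun _ _ => abs_nonneg _)
  refine le_trans ?_ (sum_le_sum_of_subset_of_nonneg (filter_subset (fun n : ℕ => T <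
      ∑ q ∈ S, (b : ℝ) ^ q.primeFactors.card * ∑ a ∈ Rel q n, |Sg P F G q n a|) (Ioc N N'))
      (fun n _ _ => h1 n))
  rw [← nsmul_eq_mul]
  exact card_nsmul_le_sum _ _ _ fun n hn => (mem_filter.1 hn).2.le

end Pool.Agent.TC.E.M
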