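import Pool.Agent.Lib.MP_0da313_nt.TC.E.M.Par

set_option autoImplicit false

/-!
Project TC, section E/M: the sum over a class of `x` is a coefficient of a product of two exponential sums.
-/

namespace Pool.Agent.TC.E.M

open Finset Filter
open Pool.Agent.MP89da58 (kapD tri)
open Pool.Agent.CH (thP)
open Pool.Agent.CM (wd)
open Pool.Agent.APP (ee)

lemma dw_zero {w : ℕ} (hw : 2 ≤ w) : dw w 0 = 0 := by
  unfold dw thP Lw
  rw [if_neg (by norm_num), if_neg (by intro h; exact h 2 Nat.prime_two hw (dvd_zero 2))]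
  norm_num

lemma thP_nonneg (k : ℕ) : 0 ≤ thP k := by
  unfold thP
  split_ifs with h
  · exact Real.log_natCast_nonneg k
  · exact le_refl 0

lemma thP_le (k : ℕ) : thP k ≤ Real.log k := by
  unfold thP
  split_ifs with h
  · exact le_refl _
  · exact Real.log_natCast_nonneg k

lemma thP_zero : thP 0 = 0 := by
  unfold thP
  rw [if_neg (by norm_num)]

lemma wd_le {lam X : ℝ} (hlam : 1 ≤ lam) (hX : 0 < X) {k : ℕ} (h : wd lam X k ≠ 0) :
    (k : ℝ) ≤ 3 * X := by
  by_contra hc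
  push Not at hc
  apply h
  unfold wd tri
  have h1 : (3 : ℝ) < k / X := by rw [lt_div_iff₀ hX]; exact hc
  have h2 : 1 ≤ Real.log (k / X) := by
    rw [Real.le_log_iff_exp_le (by linarith)]
    have := Real.exp_one_lt_three
    linarith
  have h3 : 1 ≤ lam * Real.log (k / X) := by nlinarith
  rw [abs_of_nonneg (by linarith)]
  exact max_eq_left (by linarith)

/-- The term for general sequences `F`, `G`. -/
noncomputable def tg (P : Pair) (F G : ℕ → ℝ) (n x : ℤ) : ℝ := F (P.L0 n x).toNat * G (P.L1 n x).toNat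

/-- The sum over one class, for general sequences. -/
noncomputable def Sg (P : Pair) (F G : ℕ → ℝ) (q n a : ℕ) : ℝ :=
  ∑ x ∈ (Ioo 0 n).filter (fun x : ℕ => x ≡ a [MOD q]), tg P F G n x

theorem tg_sum (P : Pair) (F G : ℕ → ℝ) (hF0 : F 0 = 0) (hG0 : G 0 = 0) {K0 : ℕ}
    (hF : ∀ k, F k ≠ 0 → k ≤ K0) {n q a M : ℕ}
    (hsup : ∀ x : ℤ, 0 < P.L0 n x → F (P.L0 n x).toNat ≠ 0 → G (P.L1 n x).toNat ≠ 0 →
      0 < x ∧ x < n)
    (hM : ∀ x : ℤ, 0 < x → x < n → P.L1 n x ≤ M)
    (r s : ℕ) (hr : ((P.u0.natAbs * q : ℕ) : ℤ) ∣ P.L0 n a - r) (hs : (q : ℤ) ∣ P.L1 n a - s) :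
    Sg P F G q n a =
      cf P.u0 P.u1 ((Icc 1 K0).filter (fun k => k ≡ r [MOD (P.u0.natAbs * q)]))
        ((range (M + 1)).filter (fun m => m ≡ s [MOD q])) F G
        ((P.u0 * P.b1 - P.u1 * P.b0) * n + (P.u0 * P.c1 - P.u1 * P.c0)) := by
  unfold cf Sg
  -- the properties of a nonzero term
  have key : ∀ x : ℤ, tg P F G n x ≠ 0 → 0 < P.L0 n x ∧ 0 < P.L1 n x ∧
      F (P.L0 n x).toNat ≠ 0 ∧ G (P.L1 n x).toNat ≠ 0 := by
    intro x hx
    unfold tg at hx
    have h1 := left_ne_zero_of_mul hx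
    have h2 := right_ne_zero_of_mul hx
    refine ⟨?_, ?_, h1, h2⟩
    · by_contra hc
      push Not at hc
      rw [Int.toNat_of_nonpos hc, hF0] at h1
      exact h1 rfl
    · by_contra hc
      push Not at hc
      rw [Int.toNat_of_nonpos hc, hG0] at h2
      exact h2 rfl
  refine sum_bij_ne_zero (fun x _ _ => ((P.L0 n x).toNat, (P.L1 n x).toNat)) ?_ ?_ ?_ ?_
  · intro x hx hne
    rw [mem_filter, mem_Ioo] at hx
    obtain ⟨k1, k2, k3, k4⟩ := key x hne
    rw [mem_filter, mem_product, mem_filter, mem_filter, mem_Icc, mem_range]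
    have hd : (q : ℤ) ∣ (x : ℤ) - a := by
      have := (Nat.modEq_iff_dvd.1 hx.2)
      have h := (dvd_neg.2 this)
      rwa [neg_sub] at h
    have hd0 : ((P.u0.natAbs * q : ℕ) : ℤ) ∣ P.L0 n x - P.L0 n a := by
      have e : P.L0 n x - P.L0 n a = P.u0 * (x - a) := by unfold Pair.L0; ring
      rw [e]
      push_cast
      exact mul_dvd_mul (abs_dvd_self _) hd
    have hd1 : (q : ℤ) ∣ P.L1 n x - P.L1 n a := by
      have e : P.L1 n x - P.L1 n a = P.u1 * (x - a) := by unfold Pair.L1; ring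
      rw [e]
      exact Dvd.dvd.mul_left hd _
    refine ⟨⟨⟨⟨?_, ?_⟩, ?_⟩, ?_, ?_⟩, ?_⟩
    · simp only; omega
    · simp only
      exact hF _ k3
    · simp only
      rw [Nat.modEq_iff_dvd]
      rw [Int.toNat_of_nonneg k1.le]
      have := dvd_add hd0 hr
      have h := dvd_neg.2 this
      have e : -(P.L0 n x - P.L0 n a + (P.L0 n a - r)) = (r : ℤ) - P.L0 n x := by ring
      rwa [e] at h
    · simp only
      have := hM x (by exact_mod_cast hx.1.1) (by exact_mod_cast hx.1.2)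
      omega
    · simp only
      rw [Nat.modEq_iff_dvd]
      rw [Int.toNat_of_nonneg k2.le]
      have := dvd_add hd1 hs
      have h := dvd_neg.2 this
      have e : -(P.L1 n x - P.L1 n a + (P.L1 n a - s)) = (s : ℤ) - P.L1 n x := by ring
      rwa [e] at h
    · simp only
      rw [Int.toNat_of_nonneg k1.le, Int.toNat_of_nonneg k2.le]
      unfold Pair.L0 Pair.L1
      ring
  · intro x hx hne y hy hne' he
    obtain ⟨k1, _, _, _⟩ := key x hne
    obtain ⟨l1, _, _, _⟩ := key y hne'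
    have h1 : (P.L0 n x).toNat = (P.L0 n y).toNat := (Prod.mk.inj he).1
    have h2 : P.L0 n x = P.L0 n y := by omega
    unfold Pair.L0 at h2
    have h3 : P.u0 * (x : ℤ) = P.u0 * y := by linarith
    have := mul_left_cancel₀ P.hu0 h3
    exact_mod_cast this
  · rintro ⟨k, m⟩ hp hne
    rw [mem_filter, mem_product, mem_filter, mem_filter, mem_Icc, mem_range] at hp
    obtain ⟨⟨⟨⟨hk1, hk2⟩, hkr⟩, hm, hms⟩, he⟩ := hp
    simp only at hk1 hk2 hkr hm hms he hne
    have h1 := right_ne_zero_of_mul hne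
    have h2 := left_ne_zero_of_mul hne
    have hd : ((P.u0.natAbs * q : ℕ) : ℤ) ∣ (k : ℤ) - P.L0 n a := by
      have h3 := Nat.modEq_iff_dvd.1 hkr
      have h4 := dvd_add hr h3
      have h5 := dvd_neg.2 h4
      have e : -(P.L0 n a - r + ((r : ℤ) - k)) = (k : ℤ) - P.L0 n a := by ring
      rwa [e] at h5
    have hd' : P.u0 * q ∣ (k : ℤ) - P.L0 n a := by
      refine dvd_trans ?_ hd
      push_cast
      exact mul_dvd_mul (self_dvd_abs _) (dvd_refl _)
    obtain ⟨y, hy⟩ := hd'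
    set x : ℤ := a + q * y with hx
    have hL0 : P.L0 n x = k := by
      have : P.L0 n x = P.L0 n a + P.u0 * q * y := by unfold Pair.L0; rw [hx]; ring
      rw [this, ← hy]; ring
    have hL1 : P.L1 n x = m := by
      have e1 : P.u0 * P.L1 n x - P.u1 * P.L0 n x =
          (P.u0 * P.b1 - P.u1 * P.b0) * n + (P.u0 * P.c1 - P.u1 * P.c0) := by
        unfold Pair.L0 Pair.L1; ring
      rw [hL0] at e1
      have e2 : P.u0 * P.L1 n x = P.u0 * m := by linarith
      exact mul_left_cancel₀ P.hu0 e2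
    have hx0 := hsup x (by rw [hL0]; exact_mod_cast hk1) (by rw [hL0]; simpa using h2)
      (by rw [hL1]; simpa using h1)
    obtain ⟨z, hz⟩ := Int.eq_ofNat_of_zero_le hx0.1.le
    have hzx : x = (z : ℤ) := hz
    refine ⟨z, ?_, ?_, ?_⟩
    · rw [mem_filter, mem_Ioo]
      refine ⟨⟨?_, ?_⟩, ?_⟩
      · have := hx0.1; omega
      · have := hx0.2; omega
      · rw [Nat.modEq_iff_dvd]
        rw [← hzx, hx]
        exact ⟨-y, by ring⟩
    · unfold tg
      rw [← hzx, hL0, hL1]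
      simpa using hne
    · rw [← hzx, hL0, hL1]
      simp
  · intro x hx hne
    rfl

end Pool.Agent.TC.E.M
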