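import Pool.Agent.Lib.MP_0da313_nt.TC.E.Int
import Pool.Agent.Lib.MP_8a4e59_co.B.Ppar

set_option autoImplicit false

/-!
Project TC, section E/M: Parseval for the convolution of two exponential sums.
-/

namespace Pool.Agent.TC.E.M

open Finset
open Pool.Agent.APP (ee ee_add)

/-- The coefficient of `h` in the product of the two exponential sums. -/
noncomputable def cf (u0 u1 : ℤ) (I J : Finset ℕ) (f g : ℕ → ℝ) (h : ℤ) : ℝ :=
  ∑ p ∈ (I ×ˢ J).filter (fun p => u0 * p.2 - u1 * p.1 = h), f p.1 * g p.2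

theorem conv_sq (u0 u1 : ℤ) (hu0 : u0 ≠ 0) (I J : Finset ℕ) (f g : ℕ → ℝ) (E : ℝ)
    (hE : ∀ α : ℝ, ‖∑ k ∈ I, (f k : ℂ) * ee (α * k)‖ ≤ E) (H : Finset ℤ) :
    ∑ h ∈ H, cf u0 u1 I J f g h ^ 2 ≤ E ^ 2 * ∑ m ∈ J, g m ^ 2 := by
  classical
  set S : Finset ℤ := (I ×ˢ J).image (fun p : ℕ × ℕ => u0 * p.2 - u1 * p.1) with hS
  -- a modulus `L` such that everything is distinct modulo `L`
  obtain ⟨L, hL1, hLS, hLJ⟩ : ∃ L : ℕ, 1 ≤ L ∧ (∀ x ∈ S, ∀ y ∈ S, (L : ℤ) ∣ x - y → x = y) ∧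
      (∀ x ∈ J.image (fun m : ℕ => u0 * m), ∀ y ∈ J.image (fun m : ℕ => u0 * m),
        (L : ℤ) ∣ x - y → x = y) := by
    set T : Finset ℤ := S ∪ J.image (fun m : ℕ => u0 * m) with hT
    refine ⟨2 * (∑ x ∈ T, x.natAbs) + 1, by omega, ?_, ?_⟩
    all_goals
      intro x hx y hy hd
      have hxT : x ∈ T := by first | exact mem_union_left _ hx | exact mem_union_right _ hx
      have hyT : y ∈ T := by first | exact mem_union_left _ hy | exact mem_union_right _ hy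
      have h1 := single_le_sum (f := fun x : ℤ => x.natAbs) (fun _ _ => Nat.zero_le _) hxT
      have h2 := single_le_sum (f := fun x : ℤ => x.natAbs) (fun _ _ => Nat.zero_le _) hyT
      have h3 : x - y = 0 := by
        apply Int.eq_zero_of_abs_lt_dvd hd
        generalize ∑ x ∈ T, x.natAbs = n at h1 h2 ⊢
        rw [abs_lt]
        constructor <;> omega
      omega
  have hL0 : (0 : ℝ) < L := by exact_mod_cast hL1
  -- Parseval for the product
  have hP1 := APP.B.p_par L S (fun h => (cf u0 u1 I J f g h : ℂ)) hL1 hLS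
  have hprod : ∀ t : ℕ, ∑ x ∈ S, (cf u0 u1 I J f g x : ℂ) * ee ((t : ℝ) * x / L) =
      (∑ k ∈ I, (f k : ℂ) * ee ((-(u1 * t : ℝ) / L) * k)) *
      (∑ m ∈ J, (g m : ℂ) * ee ((t : ℝ) * ((u0 * m : ℤ) : ℝ) / L)) := by
    intro t
    rw [sum_mul_sum, ← sum_product']
    rw [← sum_fiberwise_of_maps_to (s := I ×ˢ J) (t := S)
      (g := fun p : ℕ × ℕ => u0 * p.2 - u1 * p.1) (fun p hp => mem_image_of_mem _ hp)]
    refine sum_congr rfl fun x _ => ?_
    unfold cf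
    push_cast
    rw [sum_mul]
    refine sum_congr rfl fun p hp => ?_
    rw [mem_filter] at hp
    have e : ee ((t : ℝ) * x / L) = ee ((-(u1 * t : ℝ) / L) * p.1) * ee ((t : ℝ) * ((u0 * p.2 : ℝ)) / L) := by
      rw [← ee_add, ← hp.2]
      congr 1
      push_cast
      ring
    rw [e]
    ring
  have hP2 := APP.B.p_par L (J.image (fun m : ℕ => u0 * m))
    (fun x => ∑ m ∈ J.filter (fun m : ℕ => u0 * m = x), (g m : ℂ)) hL1 hLJ
  have hinj : ∀ m ∈ J, J.filter (fun m' : ℕ => u0 * m' = u0 * m) = {m} := by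
    intro m hm
    ext m'
    simp only [mem_filter, mem_singleton]
    constructor
    · rintro ⟨_, h⟩
      have := mul_left_cancel₀ hu0 h
      exact_mod_cast this
    · rintro rfl
      exact ⟨hm, rfl⟩
  have hinj' : Set.InjOn (fun m : ℕ => u0 * (m : ℤ)) (J : Set ℕ) := by
    intro a _ b _ h
    have := mul_left_cancel₀ hu0 h
    exact_mod_cast this
  have hB : ∀ t : ℕ, ∑ x ∈ J.image (fun m : ℕ => u0 * (m : ℤ)),
      (∑ m ∈ J.filter (fun m : ℕ => u0 * m = x), (g m : ℂ)) * ee ((t : ℝ) * x / L) =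
      ∑ m ∈ J, (g m : ℂ) * ee ((t : ℝ) * ((u0 * m : ℤ) : ℝ) / L) := by
    intro t
    rw [sum_image (fun a ha b hb h => hinj' ha hb h)]
    refine sum_congr rfl fun m hm => ?_
    rw [hinj m hm, sum_singleton]
  have hB2 : ∑ x ∈ J.image (fun m : ℕ => u0 * (m : ℤ)),
      ‖∑ m ∈ J.filter (fun m : ℕ => u0 * m = x), (g m : ℂ)‖ ^ 2 = ∑ m ∈ J, g m ^ 2 := by
    rw [sum_image (fun a ha b hb h => hinj' ha hb h)]
    refine sum_congr rfl fun m hm => ?_
    rw [hinj m hm, sum_singleton, Complex.norm_real, Real.norm_eq_abs, sq_abs]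
  have hE0 : 0 ≤ E := (norm_nonneg _).trans (hE 0)
  have h1 : (L : ℝ) * ∑ x ∈ S, ‖(cf u0 u1 I J f g x : ℂ)‖ ^ 2 ≤
      E ^ 2 * (L * ∑ m ∈ J, g m ^ 2) := by
    rw [← hP1, ← hB2, ← hP2, mul_sum]
    refine sum_le_sum fun t _ => ?_
    rw [hprod t, hB t, norm_mul, mul_pow]
    refine mul_le_mul_of_nonneg_right ?_ (by positivity)
    exact pow_le_pow_left₀ (norm_nonneg _) (hE _) 2
  have h2 : ∑ x ∈ S, ‖(cf u0 u1 I J f g x : ℂ)‖ ^ 2 ≤ E ^ 2 * ∑ m ∈ J, g m ^ 2 := by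
    have : E ^ 2 * (L * ∑ m ∈ J, g m ^ 2) = L * (E ^ 2 * ∑ m ∈ J, g m ^ 2) := by ring
    rw [this] at h1
    exact le_of_mul_le_mul_left h1 hL0
  refine le_trans ?_ h2
  have h3 : ∀ h ∈ H, h ∉ S → cf u0 u1 I J f g h ^ 2 = 0 := by
    intro h _ hh
    have : (I ×ˢ J).filter (fun p => u0 * p.2 - u1 * p.1 = h) = ∅ := by
      rw [filter_eq_empty_iff]
      intro p hp he
      exact hh (by rw [← he]; exact mem_image_of_mem _ hp)
    unfold cf
    rw [this, sum_empty]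
    norm_num
  calc ∑ h ∈ H, cf u0 u1 I J f g h ^ 2 = ∑ h ∈ H ∩ S, cf u0 u1 I J f g h ^ 2 := by
        rw [← sum_filter_add_sum_filter_not H (· ∈ S), filter_mem_eq_inter]
        rw [sum_eq_zero (s := H.filter (· ∉ S))]
        · ring
        · intro h hh
          rw [mem_filter] at hh
          exact h3 h hh.1 hh.2
    _ ≤ ∑ h ∈ S, cf u0 u1 I J f g h ^ 2 :=
        sum_le_sum_of_subset_of_nonneg inter_subset_right (fun _ _ _ => by positivity)
    _ = _ := by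
        refine sum_congr rfl fun x _ => ?_
        rw [Complex.norm_real, Real.norm_eq_abs, sq_abs]

end Pool.Agent.TC.E.M
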