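import Pool.Agent.Lib.MP_0da313_nt.TC.E.M.Cls

set_option autoImplicit false

/-!
Project TC, section E/M: the mean square over `n` for one modulus `q`.
-/

namespace Pool.Agent.TC.E.M

open Finset Filter
open Pool.Agent.MP89da58 (kapD tri)
open Pool.Agent.CH (thP)
open Pool.Agent.CM (wd)
open Pool.Agent.APP (ee)

lemma card_class (M q s : ℕ) :
    ((range (M + 1)).filter (fun m => m ≡ s [MOD q])).card ≤ M / q + 1 := by
  have : ((range (M + 1)).filter (fun m => m ≡ s [MOD q])).card ≤ (range (M / q + 1)).card := by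
    apply card_le_card_of_injOn (fun m => m / q)
    · intro m hm
      rw [mem_coe, mem_filter, mem_range] at hm
      rw [mem_coe, mem_range]
      exact Nat.lt_succ_of_le (Nat.div_le_div_right (by omega))
    · intro m hm m' hm' h
      rw [mem_coe, mem_filter] at hm hm'
      have h1 : m % q = m' % q := hm.2.trans hm'.2.symm
      simp only at h
      rw [← Nat.div_add_mod m q, ← Nat.div_add_mod m' q, h, h1]
  rwa [card_range] at this

lemma sum_G {G : ℕ → ℝ} (hG : ∀ k, |G k| ≤ thP k) {M q : ℕ} (s : ℕ) (hq : 1 ≤ q) (hqM : q ≤ M) :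
    ∑ m ∈ (range (M + 1)).filter (fun m => m ≡ s [MOD q]), G m ^ 2 ≤
      2 * M / q * (Real.log M) ^ 2 := by
  have hq0 : (0 : ℝ) < q := by exact_mod_cast hq
  have h1 : ∀ m ∈ (range (M + 1)).filter (fun m => m ≡ s [MOD q]), G m ^ 2 ≤ (Real.log M) ^ 2 := by
    intro m hm
    rw [mem_filter, mem_range] at hm
    rw [← sq_abs]
    refine pow_le_pow_left₀ (abs_nonneg _) ?_ 2
    refine (hG m).trans ?_
    rcases Nat.eq_zero_or_pos m with rfl | hm0
    · rw [thP_zero]; exact Real.log_natCast_nonneg M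
    · refine (thP_le m).trans (Real.log_le_log (by exact_mod_cast hm0) ?_)
      exact_mod_cast (by omega : m ≤ M)
  refine (sum_le_card_nsmul _ _ _ h1).trans ?_
  rw [nsmul_eq_mul]
  refine mul_le_mul_of_nonneg_right ?_ (by positivity)
  have h2 : (((range (M + 1)).filter (fun m => m ≡ s [MOD q])).card : ℝ) ≤ ((M / q + 1 : ℕ) : ℝ) := by
    exact_mod_cast card_class M q s
  refine h2.trans ?_
  push_cast
  have h3 : ((M / q : ℕ) : ℝ) ≤ M / q := Nat.cast_div_le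
  have h4 : (1 : ℝ) ≤ M / q := by
    rw [le_div_iff₀ hq0, one_mul]
    exact_mod_cast hqM
  have e : 2 * (M : ℝ) / q = M / q + M / q := by ring
  rw [e]
  linarith

theorem sq_sum (P : Pair) (F G : ℕ → ℝ) (hF0 : F 0 = 0) {K0 : ℕ} (hF : ∀ k, F k ≠ 0 → k ≤ K0)
    (hG : ∀ k, |G k| ≤ thP k) {N N' K M q : ℕ} {E : ℝ} (Rel : ℕ → ℕ → Finset ℕ)
    (hcl : Cl P K N N' Rel) (hq : 1 ≤ q) (hsq : Squarefree q) (hqM : q ≤ M)
    (hE : ∀ r : ℕ, r.Coprime (P.u0.natAbs * q) → ∀ α : ℝ,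
      ‖∑ k ∈ (Icc 1 K0).filter (fun k => k ≡ r [MOD (P.u0.natAbs * q)]), (F k : ℂ) * ee (α * k)‖ ≤ E)
    (hcop : ∀ n ∈ Ioc N N', IsCoprime P.u0 (P.b0 * n + P.c0) ∧ IsCoprime P.u1 (P.b1 * n + P.c1))
    (hsup : ∀ n ∈ Ioc N N', ∀ x : ℤ, 0 < P.L0 n x → F (P.L0 n x).toNat ≠ 0 →
      G (P.L1 n x).toNat ≠ 0 → 0 < x ∧ x < n)
    (hM : ∀ n ∈ Ioc N N', ∀ x : ℤ, 0 < x → x < n → P.L1 n x ≤ M) :
    ∑ n ∈ Ioc N N', ∑ a ∈ Rel q n, Sg P F G q n a ^ 2 ≤
      (P.u0.natAbs * q : ℕ) * ((K : ℝ) ^ q.primeFactors.card *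
        (E ^ 2 * (2 * M / q * (Real.log M) ^ 2))) := by
  classical
  have hG0 : G 0 = 0 := by
    have := hG 0
    rw [thP_zero] at this
    exact abs_nonpos_iff.1 this
  set V : ℕ := P.u0.natAbs * q with hV
  have hu : 1 ≤ P.u0.natAbs := Int.natAbs_pos.2 P.hu0
  have hV1 : 1 ≤ V := Nat.mul_pos hu hq
  have hVz : (V : ℤ) ≠ 0 := by exact_mod_cast (by omega : V ≠ 0)
  have hqV : (q : ℤ) ∣ V := by rw [hV]; push_cast; exact Dvd.intro_left _ rfl
  rw [← sum_fiberwise_of_maps_to (s := Ioc N N') (t := range V) (g := fun n => n % V)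
    (fun n _ => mem_range.2 (Nat.mod_lt _ hV1))]
  rw [← card_range V, ← nsmul_eq_mul, card_range]
  conv_rhs => rw [← card_range V]
  refine sum_le_card_nsmul _ _ _ fun ν _ => ?_
  have hB0 : 0 ≤ (K : ℝ) ^ q.primeFactors.card * (E ^ 2 * (2 * M / q * (Real.log M) ^ 2)) := by
    positivity
  rcases ((Ioc N N').filter (fun n => n % V = ν)).eq_empty_or_nonempty with he | ⟨n0, hn0⟩
  · rw [he, sum_empty]; exact hB0
  rw [mem_filter] at hn0
  have hdn : ∀ n ∈ (Ioc N N').filter (fun n => n % V = ν), (V : ℤ) ∣ (n : ℤ) - n0 := by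
    intro n hn
    rw [mem_filter] at hn
    have h1 : n0 ≡ n [MOD V] := hn0.2.trans hn.2.symm
    exact Nat.modEq_iff_dvd.1 h1
  have hRel : ∀ n ∈ (Ioc N N').filter (fun n => n % V = ν), Rel q n = Rel q n0 := by
    intro n hn
    refine hcl.per q hsq n (mem_filter.1 hn).1 n0 hn0.1 ?_
    rw [Nat.modEq_iff_dvd]
    have := dvd_neg.2 (hqV.trans (hdn n hn))
    rwa [neg_sub] at this
  have e1 : ∑ n ∈ (Ioc N N').filter (fun n => n % V = ν), ∑ a ∈ Rel q n, Sg P F G q n a ^ 2 =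
      ∑ a ∈ Rel q n0, ∑ n ∈ (Ioc N N').filter (fun n => n % V = ν), Sg P F G q n a ^ 2 := by
    rw [sum_comm' (t' := Rel q n0) (s' := fun _ => (Ioc N N').filter (fun n => n % V = ν))]
    intro n a
    constructor
    · rintro ⟨h1, h2⟩
      rw [hRel n h1] at h2
      exact ⟨h1, h2⟩
    · rintro ⟨h1, h2⟩
      rw [hRel n h1]
      exact ⟨h1, h2⟩
  rw [e1]
  have hcard := hcl.card q hsq n0 hn0.1
  have hC0 : 0 ≤ E ^ 2 * (2 * M / q * (Real.log M) ^ 2) := by positivity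
  refine le_trans ?_ (mul_le_mul_of_nonneg_right hcard hC0)
  rw [← nsmul_eq_mul]
  refine sum_le_card_nsmul _ _ _ fun a ha => ?_
  -- the classes of the two forms
  set r : ℕ := (P.L0 n0 a % V).toNat with hr
  set s : ℕ := (P.L1 n0 a % q).toNat with hs
  have hrz : (r : ℤ) = P.L0 n0 a % V := Int.toNat_of_nonneg (Int.emod_nonneg _ hVz)
  have hsz : (s : ℤ) = P.L1 n0 a % q :=
    Int.toNat_of_nonneg (Int.emod_nonneg _ (by exact_mod_cast (by omega : q ≠ 0)))
  have hr' : (V : ℤ) ∣ P.L0 n0 a - r := by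
    rw [hrz]; exact Int.dvd_self_sub_of_emod_eq rfl
  have hs' : (q : ℤ) ∣ P.L1 n0 a - s := by
    rw [hsz]; exact Int.dvd_self_sub_of_emod_eq rfl
  have hcopr : r.Coprime V := by
    rw [← Nat.isCoprime_iff_coprime]
    have h1 : IsCoprime (P.L0 n0 a) (V : ℤ) := by
      rw [hV]
      push_cast
      refine IsCoprime.mul_right ?_ (hcl.cop q hsq n0 hn0.1 a ha).1
      have h2 := (hcop n0 hn0.1).1
      have h3 : IsCoprime P.u0 (P.L0 n0 a) := by
        unfold Pair.L0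
        have : P.u0 * (a : ℤ) + (P.b0 * n0 + P.c0) = (P.b0 * n0 + P.c0) + P.u0 * a := by ring
        rw [this]
        exact h2.add_mul_left_right _
      have h4 := h3.symm
      rcases abs_choice P.u0 with h | h
      · rw [h]; exact h4
      · rw [h]; exact h4.neg_right
    obtain ⟨t, ht⟩ := hr'
    have e : (r : ℤ) = P.L0 n0 a + V * (-t) := by linarith
    rw [e]
    exact (IsCoprime.add_mul_left_left_iff).2 h1
  have hSx : ∀ n ∈ (Ioc N N').filter (fun n => n % V = ν), Sg P F G q n a =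
      cf P.u0 P.u1 ((Icc 1 K0).filter (fun k => k ≡ r [MOD V]))
        ((range (M + 1)).filter (fun m => m ≡ s [MOD q])) F G
        ((P.u0 * P.b1 - P.u1 * P.b0) * n + (P.u0 * P.c1 - P.u1 * P.c0)) := by
    intro n hn
    have hn' := (mem_filter.1 hn).1
    refine tg_sum P F G hF0 hG0 hF (hsup n hn') (hM n hn') r s ?_ ?_
    · have e : P.L0 n a - r = (P.L0 n0 a - r) + P.b0 * ((n : ℤ) - n0) := by unfold Pair.L0; ring
      rw [e]
      exact dvd_add hr' (Dvd.dvd.mul_left (hdn n hn) _)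
    · have e : P.L1 n a - s = (P.L1 n0 a - s) + P.b1 * ((n : ℤ) - n0) := by unfold Pair.L1; ring
      rw [e]
      exact dvd_add hs' (Dvd.dvd.mul_left (hqV.trans (hdn n hn)) _)
  have hinj : Set.InjOn (fun n : ℕ => (P.u0 * P.b1 - P.u1 * P.b0) * (n : ℤ) +
      (P.u0 * P.c1 - P.u1 * P.c0)) ((Ioc N N').filter (fun n => n % V = ν) : Set ℕ) := by
    intro n _ n' _ h
    simp only at h
    have h1 : (P.u0 * P.b1 - P.u1 * P.b0) * (n : ℤ) = (P.u0 * P.b1 - P.u1 * P.b0) * n' := by linarith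
    have := mul_left_cancel₀ P.hd h1
    exact_mod_cast this
  have e2 : ∑ n ∈ (Ioc N N').filter (fun n => n % V = ν), Sg P F G q n a ^ 2 =
      ∑ h ∈ ((Ioc N N').filter (fun n => n % V = ν)).image (fun n : ℕ =>
        (P.u0 * P.b1 - P.u1 * P.b0) * (n : ℤ) + (P.u0 * P.c1 - P.u1 * P.c0)),
      cf P.u0 P.u1 ((Icc 1 K0).filter (fun k => k ≡ r [MOD V]))
        ((range (M + 1)).filter (fun m => m ≡ s [MOD q])) F G h ^ 2 := by
    rw [sum_image (fun a ha b hb h => hinj ha hb h)]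
    refine sum_congr rfl fun n hn => ?_
    rw [hSx n hn]
  rw [e2]
  refine (conv_sq P.u0 P.u1 P.hu0 _ _ _ G E ?_ _).trans ?_
  · intro α
    exact hE r hcopr α
  · exact mul_le_mul_of_nonneg_left (sum_G hG s hq hqM) (sq_nonneg E)

end Pool.Agent.TC.E.M
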